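import Pool.Agent.H622R2.Exp.FinalS

/-!
# How many oracles make the sparse languages in `NEXP` closed under complement?

For every gauge `f`, the set of the oracles `A` such that the complement of every sparse language
in `NEXP^A` is in `NEXP^A` is a null set for `f` if and only if for every `ε > 0` there are
infinitely many `N` with `f N ≤ ε * log log log N`. The same holds for the set of the oracles with
this property and `NEXP^A ≠ coNEXP^A`.
-/

namespace Pool.Agent.Results.MP_aaa1c3_lc.GaugeThreshold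

open Pool.Agent.NPC Pool.Agent.H620R2.Gauge Pool.Agent.H622R2.Exp Filter

theorem result (f : ℕ → ℝ) :
    (Null f {A : Oracle | ∀ L, Sparse L → InNTime Pol A L → InNTime Pol A Lᶜ} ↔
      ∀ ε : ℝ, 0 < ε → ∃ᶠ N : ℕ in atTop,
        f N ≤ ε * Real.logb 2 (Real.logb 2 (Real.logb 2 N))) ∧
    (Null f {A : Oracle | (∀ L, Sparse L → InNTime Pol A L → InNTime Pol A Lᶜ) ∧
        ¬ ∀ L, InNTime Pol A L → InNTime Pol A Lᶜ} ↔
      ∀ ε : ℝ, 0 < ε → ∃ᶠ N : ℕ in atTop,
        f N ≤ ε * Real.logb 2 (Real.logb 2 (Real.logb 2 N))) :=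
  resS f

end Pool.Agent.Results.MP_aaa1c3_lc.GaugeThreshold
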