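import Pool.Agent.H583R2.AD.Sp3

set_option autoImplicit false

/-!
# Complements of sparse languages in `NE` relative to a random oracle
-/

namespace Pool.Agent.Results.MP_aaa1c3_lc.RandomOracleSparse

open Pool.Agent.H628R3.RO Pool.Agent.H583R2.AD

/-- For almost every oracle `A`: for each `k`, some sparse language in `NE` relative to `A` has a
complement that is not in `NEXP / (k log n)` relative to `A`. -/
theorem result : ∀ᵐ A ∂randomOracle, ∀ k : ℕ, ∃ L ∈ NE A, Sparse L ∧
    Lᶜ ∉ Adv (NEXP A) (fun n => k * Nat.log 2 n) :=
  main3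

end Pool.Agent.Results.MP_aaa1c3_lc.RandomOracleSparse
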